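import Pool.Agent.Work.MP_db9399_bg_helper21.Aux21

/-! THEOREM BIG, block SXR: signless expansion in the situation of a round. -/

set_option autoImplicit false

namespace Pool.Agent.Work.MP_db9399_bg.helper21

open Finset Classical
open Pool.Agent.Work.MP_db9399_all (nb)
open Pool.Agent.Work.MP_db9399_px (LWalk hit ee)
open Pool.Agent.Work.MP_db9399_dn (NB IsMat Tot)
open Pool.Agent.Work.MP_db9399_sc (cut Crit Conn Env Fam Rnd Hv)
open Pool.Agent.Work.MP_db9399_bg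

universe u

variable {V : Type u} [Fintype V]

section sxr
variable {T β : Type} [Fintype β] {G F : SimpleGraph V} {q δ : ℝ} {lab : V → T}
  {P : β → Finset T} {R : β → β → Prop} {U J : Finset V}

/-- one vertex outside the junk -/
theorem sxr_vertex (h : REnv G F q δ lab P R U J) {B : Finset V} {b : β} {t : V} (ht : t ∈ U)
    (hb : lab t ∈ P b) :
    (((nb G t ∩ cl lab (PN P R b)) \ (B \ J)).card : ℝ) ≤
      (((nb F t ∩ U) \ B).card : ℝ) + δ * q := by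
  have h1 : (nb G t ∩ cl lab (PN P R b)) \ (B \ J) ⊆
      ((nb F t ∩ U) \ B) ∪ ((nb G t ∩ cl lab (PN P R b)) \ (nb F t ∩ U)) := by
    intro w hw
    rw [mem_sdiff] at hw
    by_cases h2 : w ∈ nb F t ∩ U
    · refine mem_union_left _ (mem_sdiff.mpr ⟨h2, fun h3 => hw.2 (mem_sdiff.mpr ⟨h3, fun h4 => ?_⟩)⟩)
      have h5 := (mem_inter.mp hw.1).2
      rw [mem_cl, mem_PN] at h5
      obtain ⟨b', _, h6⟩ := h5
      exact h.JP w h4 b' h6
    · exact mem_union_right _ (mem_sdiff.mpr ⟨hw.1, h2⟩)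
  have h2 := (card_le_card h1).trans (card_union_le _ _)
  have h3 := h.miss b t ht hb
  have h4 : (((nb G t ∩ cl lab (PN P R b)) \ (B \ J)).card : ℝ) ≤
      (((nb F t ∩ U) \ B).card : ℝ) +
        (((nb G t ∩ cl lab (PN P R b)) \ (nb F t ∩ U)).card : ℝ) := by
    exact_mod_cast h2
  linarith

/-- one side -/
theorem sxr_side (hdis : ∀ b b', b ≠ b' → Disjoint (P b) (P b'))
    (h : REnv G F q δ lab P R U J) {A B : Finset V} (hA : A ⊆ U) :
    ∑ b, ∑ t ∈ (A \ J) ∩ cl lab (P b),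
        (((nb G t ∩ cl lab (PN P R b)) \ (B \ J)).card : ℝ) ≤
      (∑ t ∈ A \ J, (((nb F t ∩ U) \ B).card : ℝ)) + δ * q * ((A \ J).card : ℝ) := by
  have h0 : ∀ v ∈ A \ J, ∃ b, lab v ∈ P b := fun v hv =>
    h.UP v (hA (mem_sdiff.mp hv).1) (mem_sdiff.mp hv).2
  have h1 : ∑ b, ∑ t ∈ (A \ J) ∩ cl lab (P b),
        (((nb G t ∩ cl lab (PN P R b)) \ (B \ J)).card : ℝ) ≤
      ∑ b, ∑ t ∈ (A \ J) ∩ cl lab (P b), ((((nb F t ∩ U) \ B).card : ℝ) + δ * q) := by
    refine Finset.sum_le_sum (fun b _ => Finset.sum_le_sum (fun t ht => ?_))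
    rw [mem_inter, mem_cl] at ht
    exact sxr_vertex h (hA (mem_sdiff.mp ht.1).1) ht.2
  rw [sum_cls hdis h0, Finset.sum_add_distrib, Finset.sum_const, nsmul_eq_mul] at h1
  linarith

/-- the junk -/
theorem sxr_junk (h : REnv G F q δ lab P R U J) {A B : Finset V} (hB : B ⊆ U) :
    (1 - δ) * q * ((A ∩ J).card : ℝ) - δ * q * ((B \ J).card : ℝ) ≤
      ∑ t ∈ A ∩ J, (((nb F t ∩ U) \ B).card : ℝ) := by
  have h1 : ∑ t ∈ A ∩ J, ((1 - δ) * q - ((nb F t ∩ (B \ J)).card : ℝ)) ≤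
      ∑ t ∈ A ∩ J, (((nb F t ∩ U) \ B).card : ℝ) := by
    refine Finset.sum_le_sum (fun t ht => ?_)
    have h2 := (h.jdeg t (mem_inter.mp ht).2).1
    have h3 := card_add (nb F t ∩ U) B
    have h4 : (nb F t ∩ U) ∩ B ⊆ nb F t ∩ (B \ J) := by
      intro w hw
      rw [mem_inter, mem_inter, mem_nb] at hw
      rw [mem_inter, mem_sdiff, mem_nb]
      exact ⟨hw.1.1, hw.2, fun h5 => h.JJ t (mem_inter.mp ht).2 w h5 hw.1.1⟩
    have h5 : (((nb F t ∩ U) ∩ B).card : ℝ) ≤ ((nb F t ∩ (B \ J)).card : ℝ) := by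
      exact_mod_cast card_le_card h4
    linarith
  rw [Finset.sum_sub_distrib, Finset.sum_const, nsmul_eq_mul] at h1
  have h2 : ∑ t ∈ A ∩ J, ((nb F t ∩ (B \ J)).card : ℝ) ≤ δ * q * ((B \ J).card : ℝ) := by
    have h3 : ee F (A ∩ J) (B \ J) = ee F (B \ J) (A ∩ J) := ee_symm F _ _
    have h4 : ee F (B \ J) (A ∩ J) ≤ δ * q * ((B \ J).card : ℝ) := by
      refine ee_le_card F _ _ (fun v _ => le_trans ?_ (h.junk v))
      have : nb F v ∩ (A ∩ J) ⊆ nb G v ∩ J := by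
        intro w hw
        rw [mem_inter, mem_inter, mem_nb] at hw
        rw [mem_inter, mem_nb]
        exact ⟨h.FG hw.1, hw.2.2⟩
      exact_mod_cast card_le_card this
    calc ∑ t ∈ A ∩ J, ((nb F t ∩ (B \ J)).card : ℝ) = ee F (A ∩ J) (B \ J) := rfl
      _ = _ := h3
      _ ≤ _ := h4
  nlinarith

theorem sum_JJ (A J : Finset V) (f : V → ℝ) :
    ∑ t ∈ A, f t = ∑ t ∈ A \ J, f t + ∑ t ∈ A ∩ J, f t := by
  rw [← Finset.sum_union]
  · rw [Finset.sdiff_union_inter]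
  · exact Finset.disjoint_left.mpr (fun v hv hv' => (mem_sdiff.mp hv).2 (mem_inter.mp hv').2)

end sxr

theorem stmt_SXR : Stmt_SXR.{u} := by
  intro T β _ _ P R n L p c δ q V _ G F lab U J hpat hc hc1 hδ hδc hq hexp h A B hAB hA hB
  have hdis := hpat.dis
  have hcl : (A \ J) ∪ (B \ J) ⊆ cl lab (univ.biUnion P) := by
    intro v hv
    rw [mem_cl, mem_biUnion]
    rw [mem_union, mem_sdiff, mem_sdiff] at hv
    rcases hv with hv | hv
    · obtain ⟨b, hb⟩ := h.UP v (hA hv.1) hv.2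
      exact ⟨b, mem_univ _, hb⟩
    · obtain ⟨b, hb⟩ := h.UP v (hB hv.1) hv.2
      exact ⟨b, mem_univ _, hb⟩
  have h1 := hexp (A \ J) (B \ J)
    (Finset.disjoint_of_subset_left sdiff_subset (Finset.disjoint_of_subset_right sdiff_subset hAB))
    hcl
  have h2 : enP G lab P R (A \ J) (B \ J) =
      (∑ b, ∑ t ∈ (A \ J) ∩ cl lab (P b),
        (((nb G t ∩ cl lab (PN P R b)) \ (B \ J)).card : ℝ)) +
      ∑ b, ∑ t ∈ (B \ J) ∩ cl lab (P b),
        (((nb G t ∩ cl lab (PN P R b)) \ (A \ J)).card : ℝ) := by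
    unfold enP
    rw [Finset.sum_add_distrib]
  have h3 := sxr_side hdis h (B := B) hA
  have h4 := sxr_side hdis h (B := A) hB
  have h5 := sxr_junk h (A := A) hB
  have h6 := sxr_junk h (A := B) hA
  have h7 : en F U A B = (∑ t ∈ A, (((nb F t ∩ U) \ B).card : ℝ)) +
      ∑ s ∈ B, (((nb F s ∩ U) \ A).card : ℝ) := rfl
  have h8 := sum_JJ A J (fun t => (((nb F t ∩ U) \ B).card : ℝ))
  have h9 := sum_JJ B J (fun t => (((nb F t ∩ U) \ A).card : ℝ))
  have h10 := card_add A J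
  have h11 := card_add B J
  have a1 : (0 : ℝ) ≤ ((A \ J).card : ℝ) := by positivity
  have a2 : (0 : ℝ) ≤ ((B \ J).card : ℝ) := by positivity
  have a3 : (0 : ℝ) ≤ ((A ∩ J).card : ℝ) := by positivity
  have a4 : (0 : ℝ) ≤ ((B ∩ J).card : ℝ) := by positivity
  rw [h7, h8, h9, ← h10, ← h11]
  have k1 : δ * q * ((A \ J).card : ℝ) ≤ c / 100 * (q * ((A \ J).card : ℝ)) := by
    rw [mul_assoc]
    exact mul_le_mul_of_nonneg_right hδc (mul_nonneg hq a1)
  have k2 : δ * q * ((B \ J).card : ℝ) ≤ c / 100 * (q * ((B \ J).card : ℝ)) := by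
    rw [mul_assoc]
    exact mul_le_mul_of_nonneg_right hδc (mul_nonneg hq a2)
  have k3 : c / 4 * (q * ((A ∩ J).card : ℝ)) ≤ (1 - δ) * q * ((A ∩ J).card : ℝ) := by
    rw [mul_assoc]
    exact mul_le_mul_of_nonneg_right (by linarith) (mul_nonneg hq a3)
  have k4 : c / 4 * (q * ((B ∩ J).card : ℝ)) ≤ (1 - δ) * q * ((B ∩ J).card : ℝ) := by
    rw [mul_assoc]
    exact mul_le_mul_of_nonneg_right (by linarith) (mul_nonneg hq a4)
  have k5 : 0 ≤ c * (q * ((A \ J).card : ℝ)) := mul_nonneg hc.le (mul_nonneg hq a1)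
  have k6 : 0 ≤ c * (q * ((B \ J).card : ℝ)) := mul_nonneg hc.le (mul_nonneg hq a2)
  nlinarith

end Pool.Agent.Work.MP_db9399_bg.helper21
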