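import Pool.Agent.Work.MP_db9399_bg.Base

/-! THEOREM BIG: lemmas on patterns and energies (helper21). -/

set_option autoImplicit false

namespace Pool.Agent.Work.MP_db9399_bg.helper21

open Finset Classical
open Pool.Agent.Work.MP_db9399_all (nb)
open Pool.Agent.Work.MP_db9399_px (LWalk hit ee)
open Pool.Agent.Work.MP_db9399_dn (NB IsMat Tot)
open Pool.Agent.Work.MP_db9399_sc (cut Crit Conn Env Fam Rnd Hv)
open Pool.Agent.Work.MP_db9399_bg

universe u

variable {V : Type u} [Fintype V]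

theorem ee_ind (G : SimpleGraph V) (A B : Finset V) :
    ee G A B = ∑ a ∈ A, ∑ b ∈ B, (if G.Adj a b then (1 : ℝ) else 0) := by
  unfold ee
  refine Finset.sum_congr rfl (fun a _ => ?_)
  have : nb G a ∩ B = B.filter (fun b => G.Adj a b) := by
    ext b
    rw [mem_inter, mem_nb, mem_filter, and_comm]
  rw [this, Finset.card_filter]
  push_cast
  rfl

theorem ee_symm (G : SimpleGraph V) (A B : Finset V) : ee G A B = ee G B A := by
  rw [ee_ind, ee_ind, Finset.sum_comm]
  refine Finset.sum_congr rfl (fun a _ => Finset.sum_congr rfl (fun b _ => ?_))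
  simp only [G.adj_comm]

theorem ee_mono (G : SimpleGraph V) {A A' B B' : Finset V} (h : A ⊆ A') (h' : B ⊆ B') :
    ee G A B ≤ ee G A' B' := by
  unfold ee
  calc ∑ a ∈ A, ((nb G a ∩ B).card : ℝ) ≤ ∑ a ∈ A, ((nb G a ∩ B').card : ℝ) := by
        apply Finset.sum_le_sum
        intro a _
        exact_mod_cast card_le_card (inter_subset_inter_left h')
    _ ≤ ∑ a ∈ A', ((nb G a ∩ B').card : ℝ) :=
        Finset.sum_le_sum_of_subset_of_nonneg h (fun _ _ _ => by positivity)

theorem ee_nonneg (G : SimpleGraph V) (A B : Finset V) : 0 ≤ ee G A B :=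
  Finset.sum_nonneg (fun _ _ => by positivity)

theorem ee_le_card (G : SimpleGraph V) (A B : Finset V) {x : ℝ}
    (h : ∀ v ∈ A, ((nb G v ∩ B).card : ℝ) ≤ x) : ee G A B ≤ x * A.card := by
  unfold ee
  calc ∑ a ∈ A, ((nb G a ∩ B).card : ℝ) ≤ ∑ _a ∈ A, x := Finset.sum_le_sum h
    _ = x * A.card := by rw [Finset.sum_const, nsmul_eq_mul, mul_comm]

theorem sum_sdiff (G : SimpleGraph V) (A B : Finset V) :
    ∑ a ∈ A, ((nb G a \ B).card : ℝ) = ee G A (univ \ B) := by
  unfold ee
  refine Finset.sum_congr rfl (fun a _ => ?_)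
  have : nb G a \ B = nb G a ∩ (univ \ B) := by
    ext b
    rw [mem_sdiff, mem_inter, mem_sdiff]
    simp
  rw [this]

theorem card_add (X B : Finset V) : ((X ∩ B).card : ℝ) + ((X \ B).card : ℝ) = X.card := by
  have := Finset.card_sdiff_add_card_inter X B
  have h : (((X \ B).card + (X ∩ B).card : ℕ) : ℝ) = (X.card : ℝ) := by rw [this]
  push_cast at h
  linarith

/-- sum over classes -/
theorem sum_cls {T β : Type} [Fintype β] {lab : V → T} {P : β → Finset T}
    (hdis : ∀ b b', b ≠ b' → Disjoint (P b) (P b')) {A : Finset V}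
    (hA : ∀ v ∈ A, ∃ b, lab v ∈ P b) (f : V → ℝ) :
    ∑ b, ∑ t ∈ A ∩ cl lab (P b), f t = ∑ t ∈ A, f t := by
  have h1 : A = univ.biUnion (fun b => A ∩ cl lab (P b)) := by
    ext v
    simp only [mem_biUnion, mem_inter, mem_cl, mem_univ, true_and]
    constructor
    · intro h
      obtain ⟨b, hb⟩ := hA v h
      exact ⟨b, h, hb⟩
    · rintro ⟨b, h, _⟩
      exact h
  conv_rhs => rw [h1]
  rw [sum_biUnion]
  intro b _ b' _ hne
  refine Finset.disjoint_left.mpr (fun v hv hv' => ?_)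
  rw [mem_inter, mem_cl] at hv hv'
  exact (Finset.disjoint_left.mp (hdis b b' hne)) hv.2 hv'.2

/-- cardinality over classes -/
theorem card_cls {T β : Type} [Fintype β] {lab : V → T} {P : β → Finset T}
    (hdis : ∀ b b', b ≠ b' → Disjoint (P b) (P b')) {A : Finset V}
    (hA : ∀ v ∈ A, ∃ b, lab v ∈ P b) :
    ∑ b, ((A ∩ cl lab (P b)).card : ℝ) = (A.card : ℝ) := by
  have h := sum_cls hdis hA (fun _ => (1 : ℝ))
  simp only [sum_const, nsmul_eq_mul, mul_one] at h
  exact h

/-- the graph of all edges of `G` which follow the pattern -/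
def pg {T β : Type} (G : SimpleGraph V) (lab : V → T) (P : β → Finset T) (R : β → β → Prop)
    (hs : ∀ b b', R b b' → R b' b) : SimpleGraph V where
  Adj v w := G.Adj v w ∧ ∃ b b', R b b' ∧ lab v ∈ P b ∧ lab w ∈ P b'
  symm := ⟨fun v w h => by
    obtain ⟨h1, b, b', h2, h3, h4⟩ := h
    exact ⟨h1.symm, b', b, hs b b' h2, h4, h3⟩⟩
  loopless := ⟨fun v h => G.loopless.irrefl v h.1⟩

theorem pg_le {T β : Type} {G : SimpleGraph V} {lab : V → T} {P : β → Finset T}
    {R : β → β → Prop} {hs : ∀ b b', R b b' → R b' b} : pg G lab P R hs ≤ G :=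
  fun _ _ h => h.1

/-- neighbours in the pattern graph -/
theorem nb_pg {T β : Type} [Fintype β] {G : SimpleGraph V} {lab : V → T} {P : β → Finset T}
    {R : β → β → Prop} {hs : ∀ b b', R b b' → R b' b}
    (hdis : ∀ b b', b ≠ b' → Disjoint (P b) (P b')) {b : β} {v : V} (hv : lab v ∈ P b) :
    nb (pg G lab P R hs) v = nb G v ∩ cl lab (PN P R b) := by
  ext w
  rw [mem_nb, mem_inter, mem_nb, mem_cl, mem_PN]
  constructor
  · rintro ⟨h1, b1, b2, h2, h3, h4⟩
    have : b1 = b := by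
      by_contra hne
      exact (Finset.disjoint_left.mp (hdis b1 b hne)) h3 hv
    subst this
    exact ⟨h1, b2, h2, h4⟩
  · rintro ⟨h1, b2, h2, h3⟩
    exact ⟨h1, b, b2, h2, hv, h3⟩

/-- the energy of the pattern is the energy of the pattern graph -/
theorem enP_eq {T β : Type} [Fintype β] {G : SimpleGraph V} {lab : V → T} {P : β → Finset T}
    {R : β → β → Prop} (hs : ∀ b b', R b b' → R b' b)
    (hdis : ∀ b b', b ≠ b' → Disjoint (P b) (P b')) {A B : Finset V}
    (hA : ∀ v ∈ A, ∃ b, lab v ∈ P b) (hB : ∀ v ∈ B, ∃ b, lab v ∈ P b) :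
    enP G lab P R A B = ee (pg G lab P R hs) A (univ \ B) + ee (pg G lab P R hs) B (univ \ A) := by
  rw [← sum_sdiff, ← sum_sdiff, ← sum_cls hdis hA, ← sum_cls hdis hB, ← Finset.sum_add_distrib]
  unfold enP
  refine Finset.sum_congr rfl (fun b _ => ?_)
  congr 1
  · refine Finset.sum_congr rfl (fun t ht => ?_)
    rw [mem_inter, mem_cl] at ht
    rw [nb_pg hdis ht.2]
  · refine Finset.sum_congr rfl (fun t ht => ?_)
    rw [mem_inter, mem_cl] at ht
    rw [nb_pg hdis ht.2]

end Pool.Agent.Work.MP_db9399_bg.helper21
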