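import Pool.Agent.Work.MP_db9399_bg_helper21.Aux21

/-! THEOREM BIG, block SXP (from TRF): signless expansion of pattern graphs. -/

set_option autoImplicit false

namespace Pool.Agent.Work.MP_db9399_bg.helper21

open Finset Classical
open Pool.Agent.Work.MP_db9399_all (nb)
open Pool.Agent.Work.MP_db9399_px (LWalk hit ee)
open Pool.Agent.Work.MP_db9399_dn (NB IsMat Tot)
open Pool.Agent.Work.MP_db9399_sc (cut Crit Conn Env Fam Rnd Hv)
open Pool.Agent.Work.MP_db9399_bg

universe u

variable {V : Type u} [Fintype V]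

/-- energy -/
noncomputable def e2 (F : SimpleGraph V) (A B : Finset V) : ℝ :=
  ee F A (univ \ B) + ee F B (univ \ A)

theorem e2_comm (F : SimpleGraph V) (A B : Finset V) : e2 F A B = e2 F B A := by
  unfold e2
  ring

theorem ee_cut (F : SimpleGraph V) (A C D : Finset V) :
    ee F (A ∩ C) D + ee F (A \ C) D = ee F A D := by
  unfold ee
  rw [add_comm, ← Finset.sum_union]
  · rw [Finset.sdiff_union_inter]
  · exact Finset.disjoint_left.mpr (fun v hv hv' => (mem_sdiff.mp hv).2 (mem_inter.mp hv').2)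

/-- the energy of a pair without connection splits, one side -/
theorem ee_split_aux (F : SimpleGraph V) (A B C : Finset V)
    (h : ∀ v ∈ C, ∀ w ∈ A ∪ B, w ∉ C → ¬ F.Adj v w) (hC : C ⊆ A ∪ B) :
    ee F (A ∩ C) (univ \ (B ∩ C)) + ee F (A \ C) (univ \ (B \ C)) ≤ ee F A (univ \ B) := by
  rw [← ee_cut F A C (univ \ B)]
  apply add_le_add
  · unfold ee
    refine Finset.sum_le_sum (fun t ht => ?_)
    have : nb F t ∩ (univ \ (B ∩ C)) ⊆ nb F t ∩ (univ \ B) := by
      intro w hw
      rw [mem_inter, mem_sdiff, mem_inter, mem_nb] at hw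
      rw [mem_inter, mem_sdiff, mem_nb]
      refine ⟨hw.1, mem_univ _, fun h1 => ?_⟩
      have h2 : w ∉ C := fun h3 => hw.2.2 ⟨h1, h3⟩
      exact h t (mem_inter.mp ht).2 w (mem_union_right _ h1) h2 hw.1
    exact_mod_cast card_le_card this
  · unfold ee
    refine Finset.sum_le_sum (fun t ht => ?_)
    have : nb F t ∩ (univ \ (B \ C)) ⊆ nb F t ∩ (univ \ B) := by
      intro w hw
      rw [mem_inter, mem_sdiff, mem_sdiff, mem_nb] at hw
      rw [mem_inter, mem_sdiff, mem_nb]
      refine ⟨hw.1, mem_univ _, fun h1 => ?_⟩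
      have h2 : w ∈ C := by
        by_contra h3
        exact hw.2.2 ⟨h1, h3⟩
      exact h w h2 t (mem_union_left _ (mem_sdiff.mp ht).1) (mem_sdiff.mp ht).2 hw.1.symm
    exact_mod_cast card_le_card this

theorem e2_split (F : SimpleGraph V) (A B C : Finset V)
    (h : ∀ v ∈ C, ∀ w ∈ A ∪ B, w ∉ C → ¬ F.Adj v w) (hC : C ⊆ A ∪ B) :
    e2 F (A ∩ C) (B ∩ C) + e2 F (A \ C) (B \ C) ≤ e2 F A B := by
  have h1 := ee_split_aux F A B C h hC
  have h2 := ee_split_aux F B A C (by rwa [union_comm]) (by rwa [union_comm])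
  unfold e2
  linarith

theorem ee_insert (F : SimpleGraph V) (A D : Finset V) {t : V} (ht : t ∈ A) :
    ee F A D = ee F (A.erase t) D + ((nb F t ∩ D).card : ℝ) := by
  unfold ee
  rw [Finset.sum_erase_add _ _ ht]

theorem e2_erase (F : SimpleGraph V) (A B : Finset V) {t : V} (ht : t ∈ A) :
    e2 F (A.erase t) B + ((nb F t ∩ (univ \ B)).card : ℝ) ≤
      e2 F A B + ((nb F t ∩ B).card : ℝ) := by
  unfold e2
  have h1 := ee_insert F A (univ \ B) ht
  have h2 : ee F B (univ \ A.erase t) ≤ ee F B (univ \ A) + ((nb F t ∩ B).card : ℝ) := by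
    rw [ee_symm F B, ee_symm F B]
    have h3 : t ∈ univ \ A.erase t := by simp
    rw [ee_insert F (univ \ A.erase t) B h3]
    have h4 : (univ \ A.erase t).erase t ⊆ univ \ A := by
      intro w hw
      rw [mem_erase, mem_sdiff, mem_erase] at hw
      rw [mem_sdiff]
      exact ⟨mem_univ _, fun h => hw.2.2 ⟨hw.1, h⟩⟩
    have h5 := ee_mono F h4 (Subset.refl B)
    linarith
  linarith

theorem card_compl_inter (X B : Finset V) :
    ((X ∩ (univ \ B)).card : ℝ) = (X.card : ℝ) - ((X ∩ B).card : ℝ) := by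
  have h := card_add X B
  have : X ∩ (univ \ B) = X \ B := by
    ext w
    rw [mem_inter, mem_sdiff, mem_sdiff]
    simp
  rw [this]
  linarith

/-- minimal counterexamples -/
theorem min_ctr (F : SimpleGraph V) (x : ℝ) (A B : Finset V) (hAB : Disjoint A B)
    (hx : e2 F A B < x * ((A.card : ℝ) + B.card))
    (hmin : ∀ A' B' : Finset V, A' ⊆ A → B' ⊆ B → A'.card + B'.card < A.card + B.card →
      x * ((A'.card : ℝ) + B'.card) ≤ e2 F A' B') :
    Conn F (A ∪ B) ∧ (∀ t ∈ A, ((nb F t).card : ℝ) < 2 * ((nb F t ∩ B).card : ℝ) + x) ∧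
      (∀ t ∈ B, ((nb F t).card : ℝ) < 2 * ((nb F t ∩ A).card : ℝ) + x) := by
  refine ⟨?_, ?_, ?_⟩
  · intro C hC hne hC2
    by_contra hcon
    push Not at hcon
    have h1 := e2_split F A B C (fun v hv w hw hw2 hadj => hcon v hv w hw hw2 hadj) hC
    have c1 := card_sdiff_add_card_inter A C
    have c2 := card_sdiff_add_card_inter B C
    have hpos : 0 < (A ∩ C).card + (B ∩ C).card := by
      obtain ⟨v, hv⟩ := hne
      rcases mem_union.mp (hC hv) with h | h
      · have : 0 < (A ∩ C).card := card_pos.mpr ⟨v, mem_inter.mpr ⟨h, hv⟩⟩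
        omega
      · have : 0 < (B ∩ C).card := card_pos.mpr ⟨v, mem_inter.mpr ⟨h, hv⟩⟩
        omega
    have hpos2 : 0 < (A \ C).card + (B \ C).card := by
      have : ∃ v ∈ A ∪ B, v ∉ C := by
        by_contra h
        push Not at h
        exact hC2 (Subset.antisymm hC h)
      obtain ⟨v, hv, hvC⟩ := this
      rcases mem_union.mp hv with h | h
      · have : 0 < (A \ C).card := card_pos.mpr ⟨v, mem_sdiff.mpr ⟨h, hvC⟩⟩
        omega
      · have : 0 < (B \ C).card := card_pos.mpr ⟨v, mem_sdiff.mpr ⟨h, hvC⟩⟩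
        omega
    have h2 := hmin (A ∩ C) (B ∩ C) inter_subset_left inter_subset_left (by omega)
    have h3 := hmin (A \ C) (B \ C) sdiff_subset sdiff_subset (by omega)
    have c3 : ((A \ C).card : ℝ) + ((A ∩ C).card : ℝ) = A.card := by exact_mod_cast c1
    have c4 : ((B \ C).card : ℝ) + ((B ∩ C).card : ℝ) = B.card := by exact_mod_cast c2
    rw [← c3, ← c4] at hx
    nlinarith
  · intro t ht
    have h1 := e2_erase F A B ht
    have c1 := card_erase_add_one ht
    have h2 := hmin (A.erase t) B (erase_subset _ _) (Subset.refl _) (by omega)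
    have c2 : ((A.erase t).card : ℝ) + 1 = A.card := by exact_mod_cast c1
    rw [← c2] at hx
    rw [card_compl_inter] at h1
    nlinarith
  · intro t ht
    have h1 := e2_erase F B A ht
    rw [e2_comm F (B.erase t) A, e2_comm F B A] at h1
    have c1 := card_erase_add_one ht
    have h2 := hmin A (B.erase t) (Subset.refl _) (erase_subset _ _) (by omega)
    have c2 : ((B.erase t).card : ℝ) + 1 = B.card := by exact_mod_cast c1
    rw [← c2] at hx
    rw [card_compl_inter] at h1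
    nlinarith

/-- Markov -/
theorem markov (A : Finset V) (f : V → ℝ) (x : ℝ) (hf : ∀ v ∈ A, 0 ≤ f v) :
    x * ((A.filter (fun v => x ≤ f v)).card : ℝ) ≤ ∑ v ∈ A, f v := by
  calc x * ((A.filter (fun v => x ≤ f v)).card : ℝ) =
      ∑ _v ∈ A.filter (fun v => x ≤ f v), x := by
        rw [Finset.sum_const, nsmul_eq_mul, mul_comm]
    _ ≤ ∑ v ∈ A.filter (fun v => x ≤ f v), f v :=
        Finset.sum_le_sum (fun v hv => (mem_filter.mp hv).2)
    _ ≤ ∑ v ∈ A, f v :=
        Finset.sum_le_sum_of_subset_of_nonneg (filter_subset _ _) (fun v hv _ => hf v hv)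

section sep
variable {T β : Type} [Fintype β] {G : SimpleGraph V} {lab : V → T} {P : β → Finset T}
  {R : β → β → Prop}

/-- separation from small energy -/
theorem sep_of (hs : ∀ b b', R b b' → R b' b)
    (hdis : ∀ b b', b ≠ b' → Disjoint (P b) (P b')) {q z ex : ℝ} (hq : 0 < q)
    (hdeg : ∀ b v, lab v ∈ P b → 9 / 10 * q ≤ ((nb G v ∩ cl lab (PN P R b)).card : ℝ))
    {A1 A2 : Finset V} (h1 : ee (pg G lab P R hs) A1 (univ \ A2) ≤ z)
    (h2 : ee (pg G lab P R hs) A2 (univ \ A1) ≤ z) (hz : 8 * z ≤ q * ex) :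
    Sep G lab P R q ex A1 A2 := by
  set F := pg G lab P R hs with hF
  have hz0 : 0 ≤ z := (ee_nonneg F _ _).trans h1
  have hex : 0 ≤ ex := by
    by_contra h
    push Not at h
    nlinarith
  intro b
  constructor
  · have h3 := markov A1 (fun v => ((nb F v ∩ (univ \ A2)).card : ℝ)) (2 / 5 * q)
      (fun v _ => by positivity)
    have h4 : A1.filter (fun v => lab v ∈ P b ∧
        ((nb G v ∩ cl lab (PN P R b) ∩ A2).card : ℝ) ≤ q / 2) ⊆
        A1.filter (fun v => 2 / 5 * q ≤ ((nb F v ∩ (univ \ A2)).card : ℝ)) := by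
      intro v hv
      rw [mem_filter] at hv ⊢
      refine ⟨hv.1, ?_⟩
      rw [card_compl_inter, hF, nb_pg hdis hv.2.1]
      have := hdeg b v hv.2.1
      linarith [hv.2.2]
    have h5 : (((A1.filter (fun v => lab v ∈ P b ∧
        ((nb G v ∩ cl lab (PN P R b) ∩ A2).card : ℝ) ≤ q / 2)).card : ℕ) : ℝ) ≤
        ((A1.filter (fun v => 2 / 5 * q ≤ ((nb F v ∩ (univ \ A2)).card : ℝ))).card : ℝ) := by
      exact_mod_cast card_le_card h4
    refine h5.trans ?_
    have h6 : (2 / 5 * q) *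
        ((A1.filter (fun v => 2 / 5 * q ≤ ((nb F v ∩ (univ \ A2)).card : ℝ))).card : ℝ) ≤ z :=
      h3.trans h1
    by_contra h7
    push Not at h7
    have h8 : (2 / 5 * q) * ex < (2 / 5 * q) *
        ((A1.filter (fun v => 2 / 5 * q ≤ ((nb F v ∩ (univ \ A2)).card : ℝ))).card : ℝ) :=
      mul_lt_mul_of_pos_left h7 (by positivity)
    nlinarith
  · have h3 := markov (univ \ A1) (fun v => ((nb F v ∩ A2).card : ℝ)) (1 / 8 * q)
      (fun v _ => by positivity)
    have h4 : univ.filter (fun v => v ∉ A1 ∧ lab v ∈ P b ∧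
        q / 8 ≤ ((nb G v ∩ cl lab (PN P R b) ∩ A2).card : ℝ)) ⊆
        (univ \ A1).filter (fun v => 1 / 8 * q ≤ ((nb F v ∩ A2).card : ℝ)) := by
      intro v hv
      rw [mem_filter] at hv ⊢
      refine ⟨mem_sdiff.mpr ⟨mem_univ _, hv.2.1⟩, ?_⟩
      rw [hF, nb_pg hdis hv.2.2.1]
      have := hv.2.2.2
      linarith
    have h5 : (((univ.filter (fun v => v ∉ A1 ∧ lab v ∈ P b ∧
        q / 8 ≤ ((nb G v ∩ cl lab (PN P R b) ∩ A2).card : ℝ))).card : ℕ) : ℝ) ≤
        (((univ \ A1).filter (fun v => 1 / 8 * q ≤ ((nb F v ∩ A2).card : ℝ))).card : ℝ) := by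
      exact_mod_cast card_le_card h4
    refine h5.trans ?_
    have h6 : (1 / 8 * q) *
        (((univ \ A1).filter (fun v => 1 / 8 * q ≤ ((nb F v ∩ A2).card : ℝ))).card : ℝ) ≤ z := by
      refine h3.trans ?_
      have h7 : ∑ v ∈ univ \ A1, ((nb F v ∩ A2).card : ℝ) = ee F (univ \ A1) A2 := rfl
      rw [h7, ee_symm]
      exact h2
    by_contra h7
    push Not at h7
    have h8 : (1 / 8 * q) * ex < (1 / 8 * q) *
        (((univ \ A1).filter (fun v => 1 / 8 * q ≤ ((nb F v ∩ A2).card : ℝ))).card : ℝ) :=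
      mul_lt_mul_of_pos_left h7 (by positivity)
    nlinarith

end sep

/-- the sum of the degrees from `Y1 \ Y2` in a class to the complement of `Y2 \ Y1` -/
theorem half (G : SimpleGraph V) (Y1 Y2 D : Finset V) :
    ee G ((Y1 \ Y2) ∩ D) (univ \ (Y2 \ Y1)) ≤
      ee G (Y1 ∩ D) (univ \ Y2) + ee G Y1 (D \ Y2) := by
  have h1 : ee G ((Y1 \ Y2) ∩ D) (univ \ (Y2 \ Y1)) ≤
      ee G ((Y1 \ Y2) ∩ D) (univ \ Y2) + ee G ((Y1 \ Y2) ∩ D) Y1 := by
    unfold ee
    rw [← Finset.sum_add_distrib]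
    refine Finset.sum_le_sum (fun t _ => ?_)
    have : nb G t ∩ (univ \ (Y2 \ Y1)) ⊆ (nb G t ∩ (univ \ Y2)) ∪ (nb G t ∩ Y1) := by
      intro w hw
      rw [mem_inter, mem_sdiff, mem_sdiff] at hw
      rw [mem_union, mem_inter, mem_inter, mem_sdiff]
      by_cases h : w ∈ Y1
      · exact Or.inr ⟨hw.1, h⟩
      · exact Or.inl ⟨hw.1, mem_univ _, fun h2 => hw.2.2 ⟨h2, h⟩⟩
    exact_mod_cast (card_le_card this).trans (card_union_le _ _)
  have h2 : ee G ((Y1 \ Y2) ∩ D) (univ \ Y2) ≤ ee G (Y1 ∩ D) (univ \ Y2) :=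
    ee_mono G (inter_subset_inter_right sdiff_subset) (Subset.refl _)
  have h3 : ee G ((Y1 \ Y2) ∩ D) Y1 ≤ ee G Y1 (D \ Y2) := by
    rw [ee_symm]
    refine ee_mono G (Subset.refl _) ?_
    intro w hw
    rw [mem_inter, mem_sdiff] at hw
    exact mem_sdiff.mpr ⟨hw.2, hw.1.2⟩
  linarith

theorem cl_univ {T : Type} [Fintype T] (lab : V → T) : cl lab (univ : Finset T) = univ := by
  ext v
  simp [cl]

theorem den_univ {T : Type} [Fintype T] (hT : 0 < Fintype.card T) :
    den (univ : Finset T) = 1 := by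
  unfold den
  rw [Finset.card_univ]
  exact div_self (by exact_mod_cast hT.ne')

theorem diff_one {g ε0 : ℝ} {G : SimpleGraph V} {d : ℕ} (hG : BG g ε0 G d) (hg : 0 < g)
    (hd : 0 < d) {S T : Finset V} (hST : Disjoint S T) {z : ℝ}
    (h1 : ee G T (univ \ S) ≤ z * d) (hc : S.card ≤ T.card) :
    (T.card : ℝ) ≤ z / g ∧ (S.card : ℝ) ≤ z / g := by
  have hd' : (0 : ℝ) < d := by exact_mod_cast hd
  have hc' : (S.card : ℝ) ≤ T.card := by exact_mod_cast hc
  have hT0 : (0 : ℝ) ≤ T.card := by positivity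
  have h2 := hG.bip S T hST (by nlinarith)
  rw [sum_sdiff] at h2
  have h3 : (T.card : ℝ) ≤ z / g := by
    rw [le_div_iff₀ hg]
    have h4 : (g * T.card) * d ≤ z * d := by nlinarith
    have := le_of_mul_le_mul_right h4 hd'
    linarith
  exact ⟨h3, hc'.trans h3⟩

theorem diff_all {g ε0 : ℝ} {G : SimpleGraph V} {d : ℕ} (hG : BG g ε0 G d) (hg : 0 < g)
    (hd : 0 < d) {Y1 Y2 : Finset V} {z : ℝ}
    (h1 : ee G (Y1 \ Y2) (univ \ (Y2 \ Y1)) ≤ z * d)
    (h2 : ee G (Y2 \ Y1) (univ \ (Y1 \ Y2)) ≤ z * d) :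
    ((Y1 \ Y2).card : ℝ) ≤ z / g ∧ ((Y2 \ Y1).card : ℝ) ≤ z / g := by
  have hdis : Disjoint (Y1 \ Y2) (Y2 \ Y1) :=
    Finset.disjoint_left.mpr (fun v hv hv' => (mem_sdiff.mp hv').2 (mem_sdiff.mp hv).1)
  rcases le_total (Y2 \ Y1).card (Y1 \ Y2).card with h | h
  · exact diff_one hG hg hd hdis.symm h1 h
  · exact (diff_one hG hg hd hdis h2 h).symm

theorem diff_cls {ε0 p : ℝ} {G : SimpleGraph V} {d : ℕ} (hd : 0 < d) (hε : ε0 ≤ 1 / 2)
    (hlow : ∀ v, (1 - ε0) * d ≤ ((nb G v).card : ℝ)) {S0 T0 : Finset V} {z z' : ℝ}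
    (hz : ee G T0 (univ \ S0) ≤ z * d) (hS : (S0.card : ℝ) ≤ z')
    (hp : ∀ s, ((nb G s ∩ T0).card : ℝ) ≤ 2 * p * d) (hp0 : 0 ≤ p) :
    (T0.card : ℝ) ≤ 2 * z + 4 * p * z' := by
  have hd' : (0 : ℝ) < d := by exact_mod_cast hd
  have h1 : ∑ t ∈ T0, ((nb G t).card : ℝ) = ee G T0 (univ \ S0) + ee G T0 S0 := by
    unfold ee
    rw [← Finset.sum_add_distrib]
    refine Finset.sum_congr rfl (fun t _ => ?_)
    rw [card_compl_inter]
    ring
  have h2 : ((1 - ε0) * d) * (T0.card : ℝ) ≤ ∑ t ∈ T0, ((nb G t).card : ℝ) := by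
    calc ((1 - ε0) * d) * (T0.card : ℝ) = ∑ _t ∈ T0, ((1 - ε0) * d) := by
          rw [Finset.sum_const, nsmul_eq_mul, mul_comm]
      _ ≤ _ := Finset.sum_le_sum (fun t _ => hlow t)
  have h3 : ee G T0 S0 ≤ 2 * p * d * (S0.card : ℝ) := by
    rw [ee_symm]
    exact ee_le_card G _ _ (fun v _ => hp v)
  have h4 : 2 * p * d * (S0.card : ℝ) ≤ 2 * p * d * z' :=
    mul_le_mul_of_nonneg_left hS (by positivity)
  have h5 : (1 / 2 * d) * (T0.card : ℝ) ≤ ((1 - ε0) * d) * (T0.card : ℝ) := by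
    apply mul_le_mul_of_nonneg_right _ (by positivity)
    apply mul_le_mul_of_nonneg_right _ hd'.le
    linarith
  have h6 : (T0.card : ℝ) * d ≤ (2 * z + 4 * p * z') * d := by nlinarith
  exact le_of_mul_le_mul_right h6 hd'

/-- one class of one side -/
theorem side_le {A B Y1 Y2 D : Finset V} (hAB : Disjoint A B) :
    ((A ∩ D).card : ℝ) ≤ (((A ∩ D) \ (Y1 ∩ D)).card : ℝ) + (((Y1 \ Y2) ∩ D).card : ℝ) +
      (((Y2 ∩ D) \ (B ∩ D)).card : ℝ) := by
  have h : A ∩ D ⊆ ((A ∩ D) \ (Y1 ∩ D)) ∪ ((Y1 \ Y2) ∩ D) ∪ ((Y2 ∩ D) \ (B ∩ D)) := by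
    intro v hv
    rw [mem_union, mem_union, mem_sdiff, mem_inter, mem_inter, mem_inter, mem_sdiff, mem_sdiff,
      mem_inter, mem_inter]
    obtain ⟨h1, h2⟩ := mem_inter.mp hv
    have h3 : v ∉ B := Finset.disjoint_left.mp hAB h1
    by_cases h4 : v ∈ Y1
    · by_cases h5 : v ∈ Y2
      · exact Or.inr ⟨⟨h5, h2⟩, fun h => h3 h.1⟩
      · exact Or.inl (Or.inr ⟨⟨h4, h5⟩, h2⟩)
    · exact Or.inl (Or.inl ⟨⟨h1, h2⟩, fun h => h4 h.1⟩)
  have h1 := (card_le_card h).trans ((card_union_le _ _).trans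
    (Nat.add_le_add_right (card_union_le _ _) _))
  exact_mod_cast h1

/-- TRF gives a contradiction for a minimal counterexample -/
theorem stmt_SXP (hTRF : Stmt_TRF.{u}) : Stmt_SXP.{u} := by
  intro g n B L hg
  have hg1 : 0 < min g 1 := lt_min hg one_pos
  have hB0 : (0 : ℝ) < 1000 * ((B : ℝ) + 1) := by positivity
  obtain ⟨ε1, hε1, hT⟩ := hTRF n L (min g 1 / (1000 * ((B : ℝ) + 1))) (by positivity)
  have hcpos : 0 < min (ε1 / (8 * ((n : ℝ) + 1))) (1 / 100) := lt_min (by positivity) (by norm_num)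
  refine ⟨min (ε1 / (8 * ((n : ℝ) + 1))) (1 / 100), hcpos,
    (min_le_right _ _).trans (by norm_num), ?_⟩
  intro M hM
  obtain ⟨σ, c1, ε0, d0, hσ, hc1, hε0, hT⟩ := hT M hM
  have hM0 : (0 : ℝ) < M := by exact_mod_cast hM
  refine ⟨min σ (1 / (1000 * M)), c1, min ε0 (1 / 1000), max d0 1, lt_min hσ (by positivity), hc1,
    lt_min hε0 (by norm_num), ?_⟩
  intro T β _ _ P R p V _ G d lab A B' hpat hβ hTM hd hG hlab hAB hABc
  set ε := min g 1 / (1000 * ((B : ℝ) + 1)) with hεdef
  set c := min (ε1 / (8 * ((n : ℝ) + 1))) (1 / 100) with hcdef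
  set σ' := min σ (1 / (1000 * (M : ℝ))) with hσ'
  set ε0' := min ε0 (1 / 1000) with hε0'
  set e := 1 / (1000 * ((B : ℝ) + 1)) with hedef
  have he0 : 0 < e := by positivity
  have hεe : ε ≤ e := by
    rw [hεdef, hedef]
    exact div_le_div_of_nonneg_right (min_le_right _ _) hB0.le
  have hεpos : 0 < ε := by positivity
  have hεg : ε ≤ g * e := by
    rw [hεdef, hedef, mul_one_div]
    exact div_le_div_of_nonneg_right (min_le_left _ _) hB0.le
  have hd1 : 1 ≤ d := (le_max_right _ _).trans hd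
  have hd0 : d0 ≤ d := (le_max_left _ _).trans hd
  have hdpos : (0 : ℝ) < d := by exact_mod_cast hd1
  have hdis := hpat.dis
  have hs := hpat.sym
  have hc100 : c ≤ 1 / 100 := min_le_right _ _
  have hn0 : (1 : ℝ) ≤ n := by exact_mod_cast hpat.n0
  have hp0 := hpat.p0
  have hq : 0 < (n : ℝ) * p * d := by positivity
  have hTpos : 0 < Fintype.card T := by rw [hTM]; exact hM
  -- strong induction
  suffices H : ∀ N : ℕ, ∀ A B' : Finset V, A.card + B'.card = N → Disjoint A B' →
      A ∪ B' ⊆ cl lab (univ.biUnion P) →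
      c * (n * p * d) * ((A.card : ℝ) + B'.card) ≤ e2 (pg G lab P R hs) A B' by
    have hcl : ∀ v ∈ A ∪ B', ∃ b, lab v ∈ P b := by
      intro v hv
      have := hABc hv
      rw [mem_cl, mem_biUnion] at this
      obtain ⟨b, _, hb⟩ := this
      exact ⟨b, hb⟩
    rw [enP_eq hs hdis (fun v hv => hcl v (mem_union_left _ hv))
      (fun v hv => hcl v (mem_union_right _ hv))]
    exact H _ A B' rfl hAB hABc
  intro N
  clear hAB hABc A B'
  induction N using Nat.strong_induction_on with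
  | _ N ih =>
  intro A B' hN hAB hABc
  by_contra hcon
  push Not at hcon
  set F := pg G lab P R hs with hF
  set q := (n : ℝ) * p * d with hqdef
  have hcl : ∀ v ∈ A ∪ B', ∃ b, lab v ∈ P b := by
    intro v hv
    have := hABc hv
    rw [mem_cl, mem_biUnion] at this
    obtain ⟨b, _, hb⟩ := this
    exact ⟨b, hb⟩
  obtain ⟨hconn, hA1, hB1⟩ := min_ctr F (c * q) A B' hAB hcon (by
    intro A' B'' hA' hB'' hlt
    refine ih _ (by omega) A' B'' rfl (Finset.disjoint_of_subset_left hA'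
      (Finset.disjoint_of_subset_right hB'' hAB)) ?_
    exact (union_subset_union hA' hB'').trans hABc)
  have hXcard : ((A ∪ B').card : ℝ) = (A.card : ℝ) + B'.card := by
    rw [card_union_of_disjoint hAB]
    push_cast
    ring
  set X := A ∪ B' with hX
  have he2 : e2 F A B' < c * q * X.card := by rw [hXcard]; exact hcon
  have he20 : 0 ≤ e2 F A B' := add_nonneg (ee_nonneg _ _ _) (ee_nonneg _ _ _)
  have hcq : 0 < c * q := mul_pos hcpos hq
  have hXpos : (0 : ℝ) < X.card := by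
    by_contra h
    push Not at h
    have h1 : (c * q) * (X.card : ℝ) ≤ 0 := mul_nonpos_of_nonneg_of_nonpos hcq.le h
    linarith
  have hXne : X.Nonempty := by
    rw [← card_pos]
    exact_mod_cast hXpos
  obtain ⟨v0, hv0⟩ := hXne
  obtain ⟨b0, hb0⟩ := hcl v0 hv0
  have hpM : 1 / (M : ℝ) ≤ p := by
    rw [← hpat.dn b0]
    unfold den
    rw [hTM]
    apply div_le_div_of_nonneg_right _ hM0.le
    have : 1 ≤ (P b0).card := card_pos.mpr ⟨_, hb0⟩
    exact_mod_cast this
  have hσd : σ' * d ≤ 1 / 1000 * (p * d) := by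
    have h1 : σ' ≤ 1 / 1000 * p := by
      calc σ' ≤ 1 / (1000 * (M : ℝ)) := min_le_right _ _
        _ = 1 / 1000 * (1 / (M : ℝ)) := by field_simp
        _ ≤ 1 / 1000 * p := by linarith
    calc σ' * d ≤ (1 / 1000 * p) * d := mul_le_mul_of_nonneg_right h1 hdpos.le
      _ = 1 / 1000 * (p * d) := by ring
  have hpq : p * d ≤ q := by
    rw [hqdef]
    have h1 : 0 < p * d := by positivity
    calc p * d = 1 * (p * d) := by ring
      _ ≤ n * (p * d) := mul_le_mul_of_nonneg_right hn0 h1.le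
      _ = n * p * d := by ring
  have hdegF : ∀ b v, lab v ∈ P b →
      998 / 1000 * q ≤ ((nb G v ∩ cl lab (PN P R b)).card : ℝ) := by
    intro b v _
    have h1 := hlab.deg v (PN P R b)
    rw [hpat.den_PN b] at h1
    have h2 := (abs_le.mp h1).1
    have h3 := hG.low v
    have h4 : ε0' ≤ 1 / 1000 := min_le_right _ _
    have h5 : (n * p) * ((1 - 1 / 1000) * d) ≤ n * p * ((nb G v).card : ℝ) := by
      apply mul_le_mul_of_nonneg_left _ (by positivity)
      refine le_trans ?_ h3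
      apply mul_le_mul_of_nonneg_right _ hdpos.le
      linarith
    have h6 : (n * p) * ((1 - 1 / 1000) * d) = 999 / 1000 * q := by
      rw [hqdef]; ring
    linarith
  have hnbF : ∀ v ∈ X, 998 / 1000 * q ≤ ((nb F v).card : ℝ) := by
    intro v hv
    obtain ⟨b, hb⟩ := hcl v hv
    rw [hF, nb_pg hdis hb]
    exact hdegF b v hb
  have hcq100 : c * q ≤ 1 / 100 * q := mul_le_mul_of_nonneg_right hc100 hq.le
  have hA2 : ∀ t ∈ A, 49 / 100 * q ≤ ((nb F t ∩ B').card : ℝ) := by
    intro t ht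
    have h1 := hA1 t ht
    have h2 := hnbF t (mem_union_left _ ht)
    linarith
  have hB2 : ∀ t ∈ B', 49 / 100 * q ≤ ((nb F t ∩ A).card : ℝ) := by
    intro t ht
    have h1 := hB1 t ht
    have h2 := hnbF t (mem_union_right _ ht)
    linarith
  have hnbX : ∀ v ∈ X, 49 / 100 * q ≤ ((nb F v ∩ X).card : ℝ) := by
    intro v hv
    rcases mem_union.mp hv with h | h
    · refine (hA2 v h).trans ?_
      exact_mod_cast card_le_card (inter_subset_inter_left subset_union_right)
    · refine (hB2 v h).trans ?_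
      exact_mod_cast card_le_card (inter_subset_inter_left subset_union_left)
  have hXq : q ≤ 4 * (X.card : ℝ) := by
    have h1 := hnbX v0 hv0
    have h2 : ((nb F v0 ∩ X).card : ℝ) ≤ X.card := by
      exact_mod_cast card_le_card inter_subset_right
    linarith
  have hfil : (X.filter (fun v => ((nb G v ∩ X).card : ℝ) ≤ q / 4)).card ≤ 30 := by
    have : X.filter (fun v => ((nb G v ∩ X).card : ℝ) ≤ q / 4) = ∅ := by
      rw [filter_eq_empty_iff]
      intro v hv h
      have h1 := hnbX v hv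
      have h2 : ((nb F v ∩ X).card : ℝ) ≤ ((nb G v ∩ X).card : ℝ) := by
        have : nb F v ∩ X ⊆ nb G v ∩ X := by
          intro w hw
          rw [mem_inter, mem_nb] at hw ⊢
          exact ⟨pg_le hw.1, hw.2⟩
        exact_mod_cast card_le_card this
      linarith
    rw [this]
    simp
  have hAe : ee F A (univ \ B') ≤ c * q * X.card := by
    have : ee F A (univ \ B') ≤ e2 F A B' := by
      unfold e2
      linarith [ee_nonneg F B' (univ \ A)]
    linarith
  have hBe : ee F B' (univ \ A) ≤ c * q * X.card := by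
    have : ee F B' (univ \ A) ≤ e2 F A B' := by
      unfold e2
      linarith [ee_nonneg F A (univ \ B')]
    linarith
  have hc8 : 8 * c * n ≤ ε1 := by
    have h1 : c ≤ ε1 / (8 * ((n : ℝ) + 1)) := min_le_left _ _
    rw [le_div_iff₀ (by positivity)] at h1
    linarith
  have hc8' : 8 * c ≤ ε1 := by
    have h1 : (8 * c) * 1 ≤ (8 * c) * n := mul_le_mul_of_nonneg_left hn0 (by positivity)
    linarith
  have h8z : 8 * (c * q * X.card) ≤ q * (ε1 * X.card) := by
    have : 8 * c * (q * X.card) ≤ ε1 * (q * X.card) :=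
      mul_le_mul_of_nonneg_right hc8' (by positivity)
    linarith
  have hdegF' : ∀ b v, lab v ∈ P b →
      9 / 10 * q ≤ ((nb G v ∩ cl lab (PN P R b)).card : ℝ) := by
    intro b v hb
    have := hdegF b v hb
    linarith
  have hsep1 := sep_of hs hdis hq hdegF' hAe hBe h8z
  have hsep2 := sep_of hs hdis hq hdegF' hBe hAe h8z
  have hcross : ∀ (A1 A2 : Finset V), ee F A1 (univ \ A2) ≤ c * q * X.card →
      ∀ b b', R b b' → ee G (A1 ∩ cl lab (P b)) (cl lab (P b') \ A2) ≤
        ε1 * (p * d) * X.card := by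
    intro A1 A2 h b b' hR
    have h1 : ee G (A1 ∩ cl lab (P b)) (cl lab (P b') \ A2) ≤ ee F A1 (univ \ A2) := by
      calc ee G (A1 ∩ cl lab (P b)) (cl lab (P b') \ A2)
          ≤ ee F (A1 ∩ cl lab (P b)) (univ \ A2) := by
            unfold ee
            refine Finset.sum_le_sum (fun v hv => ?_)
            rw [mem_inter, mem_cl] at hv
            have : nb G v ∩ (cl lab (P b') \ A2) ⊆ nb F v ∩ (univ \ A2) := by
              intro w hw
              rw [mem_inter, mem_sdiff, mem_cl, mem_nb] at hw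
              rw [mem_inter, mem_sdiff, mem_nb]
              exact ⟨⟨hw.1, b, b', hR, hv.2, hw.2.1⟩, mem_univ _, hw.2.2⟩
            exact_mod_cast card_le_card this
        _ ≤ ee F A1 (univ \ A2) := ee_mono F inter_subset_left (Subset.refl _)
    refine (h1.trans h).trans ?_
    apply mul_le_mul_of_nonneg_right _ hXpos.le
    rw [hqdef]
    have h2 : c * n ≤ ε1 := by
      have : 0 ≤ c * n := by positivity
      linarith
    have h3 : (c * n) * (p * d) ≤ ε1 * (p * d) :=
      mul_le_mul_of_nonneg_right h2 (by positivity)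
    linarith
  obtain ⟨Y1, Y2, -, hee, -, hnear⟩ := hT P R p G F d lab X A B' hpat hTM hd0 hG.deg
    (fun v => le_trans (by
      apply mul_le_mul_of_nonneg_right _ hdpos.le
      have : ε0' ≤ ε0 := min_le_left _ _
      linarith) (hG.low v)) (hlab.mono (min_le_left _ _) le_rfl) pg_le hconn
    subset_union_left subset_union_right hXq hfil hsep1 hsep2
    (fun b b' hR => ⟨hcross A B' hAe b b' hR, hcross B' A hBe b b' hR⟩)
  -- the contradiction
  set X0 := (X.card : ℝ) / p with hX0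
  have hX0pos : 0 < X0 := by positivity
  have hpX0 : p * X0 = X.card := by
    rw [hX0]; field_simp
  have g1 : ∀ P' : Finset T, ee G ((Y1 \ Y2) ∩ cl lab P') (univ \ (Y2 \ Y1)) ≤
      (2 * e * min g 1 * den P' * X0) * d := by
    intro P'
    have h1 := half G Y1 Y2 (cl lab P')
    have h2 := (hee P' univ).1
    have h3 := (hee univ P').1
    rw [cl_univ, den_univ hTpos] at h2 h3
    rw [inter_univ] at h3
    have h4 : ε = e * min g 1 := by rw [hεdef, hedef]; ring
    rw [h4] at h2 h3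
    linarith
  have g2 : ∀ P' : Finset T, ee G ((Y2 \ Y1) ∩ cl lab P') (univ \ (Y1 \ Y2)) ≤
      (2 * e * min g 1 * den P' * X0) * d := by
    intro P'
    have h1 := half G Y2 Y1 (cl lab P')
    have h2 := (hee P' univ).2
    have h3 := (hee univ P').2
    rw [cl_univ, den_univ hTpos] at h2 h3
    rw [inter_univ] at h3
    have h4 : ε = e * min g 1 := by rw [hεdef, hedef]; ring
    rw [h4] at h2 h3
    linarith
  have g3 : ((Y1 \ Y2).card : ℝ) ≤ 2 * e * X0 ∧ ((Y2 \ Y1).card : ℝ) ≤ 2 * e * X0 := by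
    have h1 := g1 univ
    have h2 := g2 univ
    rw [cl_univ, inter_univ, den_univ hTpos] at h1 h2
    obtain ⟨h3, h4⟩ := diff_all hG hg (by omega) h1 h2
    have h5 : 2 * e * min g 1 * 1 * X0 / g ≤ 2 * e * X0 := by
      rw [div_le_iff₀ hg]
      have : min g 1 ≤ g := min_le_left _ _
      have h6 : (2 * e * X0) * min g 1 ≤ (2 * e * X0) * g :=
        mul_le_mul_of_nonneg_left this (by positivity)
      linarith
    exact ⟨h3.trans h5, h4.trans h5⟩
  have hcell : ∀ b s, ((nb G s ∩ cl lab (P b)).card : ℝ) ≤ 2 * p * d := by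
    intro b s
    have h1 := (abs_le.mp (hlab.deg s (P b))).2
    rw [hpat.dn b] at h1
    have h2 : p * ((nb G s).card : ℝ) ≤ p * d := by
      apply mul_le_mul_of_nonneg_left _ hp0.le
      exact_mod_cast hG.deg s
    have h3 : 0 ≤ p * d := by positivity
    linarith
  have hε0'2 : ε0' ≤ 1 / 2 := (min_le_right _ _).trans (by norm_num)
  have hmin1 : min g 1 ≤ 1 := min_le_right _ _
  have g4 : ∀ b, (((Y1 \ Y2) ∩ cl lab (P b)).card : ℝ) ≤ 12 * e * X.card := by
    intro b
    have h1 := g1 (P b)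
    rw [hpat.dn b] at h1
    have h2 := diff_cls (p := p) (by omega : 0 < d) hε0'2 hG.low h1 g3.2
      (fun s => le_trans (by exact_mod_cast card_le_card (inter_subset_inter_left
        inter_subset_right)) (hcell b s)) hp0.le
    refine h2.trans ?_
    have h3 : (2 * e * (p * X0)) * min g 1 ≤ (2 * e * (p * X0)) * 1 :=
      mul_le_mul_of_nonneg_left hmin1 (by positivity)
    rw [← hpX0]
    linarith
  have g5 : ∀ b, (((Y2 \ Y1) ∩ cl lab (P b)).card : ℝ) ≤ 12 * e * X.card := by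
    intro b
    have h1 := g2 (P b)
    rw [hpat.dn b] at h1
    have h2 := diff_cls (p := p) (by omega : 0 < d) hε0'2 hG.low h1 g3.1
      (fun s => le_trans (by exact_mod_cast card_le_card (inter_subset_inter_left
        inter_subset_right)) (hcell b s)) hp0.le
    refine h2.trans ?_
    have h3 : (2 * e * (p * X0)) * min g 1 ≤ (2 * e * (p * X0)) * 1 :=
      mul_le_mul_of_nonneg_left hmin1 (by positivity)
    rw [← hpX0]
    linarith
  have hεX : ε * X.card ≤ e * X.card := mul_le_mul_of_nonneg_right hεe hXpos.le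
  have g6 : ∀ b, ((A ∩ cl lab (P b)).card : ℝ) ≤ 14 * e * X.card := by
    intro b
    have h1 := side_le (Y1 := Y1) (Y2 := Y2) (D := cl lab (P b)) hAB
    have h2 := (hnear b).1
    have h3 := (hnear b).2
    unfold Near at h2 h3
    have h4 := g4 b
    have h5 : (0 : ℝ) ≤ (((Y1 ∩ cl lab (P b)) \ (A ∩ cl lab (P b))).card : ℝ) := by positivity
    have h6 : (0 : ℝ) ≤ (((B' ∩ cl lab (P b)) \ (Y2 ∩ cl lab (P b))).card : ℝ) := by positivity
    linarith
  have g7 : ∀ b, ((B' ∩ cl lab (P b)).card : ℝ) ≤ 14 * e * X.card := by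
    intro b
    have h1 := side_le (Y1 := Y2) (Y2 := Y1) (D := cl lab (P b)) hAB.symm
    have h2 := (hnear b).1
    have h3 := (hnear b).2
    unfold Near at h2 h3
    have h4 := g5 b
    have h5 : (0 : ℝ) ≤ (((Y2 ∩ cl lab (P b)) \ (B' ∩ cl lab (P b))).card : ℝ) := by positivity
    have h6 : (0 : ℝ) ≤ (((A ∩ cl lab (P b)) \ (Y1 ∩ cl lab (P b))).card : ℝ) := by positivity
    linarith
  have hsum : ∀ D : Finset V, D ⊆ X → (∀ b, ((D ∩ cl lab (P b)).card : ℝ) ≤ 14 * e * X.card) →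
      (D.card : ℝ) ≤ 14 / 1000 * X.card := by
    intro D hD h
    rw [← card_cls hdis (fun v hv => hcl v (hD hv))]
    calc ∑ b, ((D ∩ cl lab (P b)).card : ℝ) ≤ ∑ _b : β, 14 * e * (X.card : ℝ) :=
          Finset.sum_le_sum (fun b _ => h b)
      _ = (Fintype.card β : ℝ) * (14 * e * X.card) := by
          rw [Finset.sum_const, nsmul_eq_mul, Finset.card_univ]
      _ ≤ (B : ℝ) * (14 * e * X.card) := by
          apply mul_le_mul_of_nonneg_right _ (by positivity)
          exact_mod_cast hβ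
      _ ≤ 14 / 1000 * X.card := by
          have : (B : ℝ) * e ≤ 1 / 1000 := by
            rw [hedef, mul_one_div, div_le_div_iff₀ hB0 (by norm_num)]
            linarith
          have h5 : ((B : ℝ) * e) * (14 * X.card) ≤ 1 / 1000 * (14 * X.card) :=
            mul_le_mul_of_nonneg_right this (by positivity)
          linarith
  have h1 := hsum A subset_union_left g6
  have h2 := hsum B' subset_union_right g7
  linarith

end Pool.Agent.Work.MP_db9399_bg.helper21
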